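import Pool.Agent.H700Z.Pac4

open AlgebraicGeometry CategoryTheory

namespace Pool.Agent.Results.MP_023059_nt.ANotProcyclic

/-- There is a field `K` over which every geometrically integral scheme locally of finite type
(so in particular every smooth projective geometrically integral variety, `O`-acyclic or not)
has a `K`-rational point, while the absolute Galois group of `K` (Krull topology) is not
topologically generated by one element. -/
theorem result : ∃ (K : Type) (_ : Field K),
    (∀ (X : Scheme.{0}) (f : X ⟶ Spec (CommRingCat.of K)),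
      LocallyOfFiniteType f → GeometricallyIntegral f →
        ∃ s : Spec (CommRingCat.of K) ⟶ X, s ≫ f = 𝟙 (Spec (CommRingCat.of K))) ∧
    ¬ ∃ g : SeparableClosure K ≃ₐ[K] SeparableClosure K,
      (Subgroup.zpowers g).topologicalClosure = ⊤ := by
  obtain ⟨K, hK, hec⟩ := Pool.Agent.H700Z.Pac.exists_ec
  refine ⟨K, inferInstance, fun X f h1 h2 => Pool.Agent.H700Z.Pac.pac K hK hec X f, ?_⟩
  refine Pool.Agent.H700Z.Pac.not_procyclic K fun x => ?_
  have h := hK.2 x x.2
  refine ⟨fun h' => h.1 ?_, fun h' => h.2.1 ?_, fun h' => h.2.2 ?_⟩ <;>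
    exact_mod_cast congrArg K.subtype h'

end Pool.Agent.Results.MP_023059_nt.ANotProcyclic
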